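import Mathlib

/-!
# Every M-number is strongly matchable

Proof idea.  Index the rows of a square matrix by the divisors `s` of `n` and its columns by the
`N = τ(n)` terms of the progression, with entry
`∏_{p ∣ s} (ζ_p ^ (v_p(s) * (c_p + j)) - 1)`, where `p ∣ a + j d` implies `p ∣ c_p + j`.
A nonzero entry forces `gcd (s, a + j d) = 1`.  The rows span the `N` exponential sequences
`j ↦ ∏_p ζ_p ^ (v_p(t) * (c_p + j))`, `t ∣ n`, which are linearly independent on `N` consecutive
values of `j` (Vandermonde), because `v_p(n) < p` makes the bases pairwise distinct.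
Hence the determinant is nonzero, and some term of its Leibniz expansion gives the matching.
-/

namespace Pool.Agent.Results.MP_0a29ca_nt.MNumbersAreStronglyMatchable

/-- `ψ` is a coprime matching from `A` to `B`: it restricts to a bijection from `A` onto `B`
with `gcd (x, ψ x) = 1` for every `x ∈ A`. -/
def IsCoprimeMatching (A B : Finset ℕ) (ψ : ℕ → ℕ) : Prop :=
  Set.BijOn ψ (A : Set ℕ) (B : Set ℕ) ∧ ∀ x ∈ A, Nat.gcd x (ψ x) = 1

/-- The arithmetic progression `{a, a + d, …, a + (k - 1) d}`. -/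
def progression (a d k : ℕ) : Finset ℕ := (Finset.range k).image fun j => a + j * d

/-- `n` is strongly matchable: `n ≥ 1` and for every coprime arithmetic progression of length
`τ(n)` there is a coprime matching from the set of divisors of `n` to it. -/
def IsStronglyMatchable (n : ℕ) : Prop :=
  0 < n ∧ ∀ a d : ℕ, 1 ≤ a → 1 ≤ d → Nat.gcd a d = 1 →
    ∃ ψ : ℕ → ℕ, IsCoprimeMatching n.divisors (progression a d n.divisors.card) ψ

/-- `n` is an M-number: `n ≥ 1` and `p ^ p` does not divide `n`, for every prime `p`. -/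
def IsMNumber (n : ℕ) : Prop := 0 < n ∧ ∀ p : ℕ, p.Prime → ¬ p ^ p ∣ n

/-- The standard primitive `p`-th root of unity. -/
noncomputable def zeta (p : ℕ) : ℂ := Complex.exp (2 * Real.pi * Complex.I / p)

lemma zeta_prim {p : ℕ} (hp : p.Prime) : IsPrimitiveRoot (zeta p) p :=
  Complex.isPrimitiveRoot_exp p hp.ne_zero

lemma fact_lt {n t p : ℕ} (hM : IsMNumber n) (ht : t ∣ n) (hp : p.Prime) :
    t.factorization p < p := by
  by_contra h
  push Not at h
  have ht0 : t ≠ 0 := fun h0 => by
    rw [h0, zero_dvd_iff] at ht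
    exact hM.1.ne' ht
  exact hM.2 p hp (((hp.pow_dvd_iff_le_factorization ht0).2 h).trans ht)

/-- the bases of the exponential sequences -/
noncomputable def base (n t : ℕ) : ℂ := ∏ p ∈ n.primeFactors, zeta p ^ t.factorization p

lemma base_inj {n t s : ℕ} (hM : IsMNumber n) (ht : t ∣ n) (hs : s ∣ n)
    (h : base n t = base n s) : t = s := by
  have hn : n ≠ 0 := hM.1.ne'
  have ht0 : t ≠ 0 := fun h0 => hn (by rw [h0, zero_dvd_iff] at ht; exact ht)
  have hs0 : s ≠ 0 := fun h0 => hn (by rw [h0, zero_dvd_iff] at hs; exact hs)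
  have key : ∀ (p : ℕ), p ∈ n.primeFactors → ∀ u : ℕ,
      (base n u) ^ (∏ q ∈ n.primeFactors.erase p, q)
        = (zeta p ^ (∏ q ∈ n.primeFactors.erase p, q)) ^ u.factorization p := by
    intro p hp u
    unfold base
    rw [← Finset.mul_prod_erase _ _ hp, mul_pow]
    have h1 : (∏ q ∈ n.primeFactors.erase p, zeta q ^ u.factorization q) ^
        (∏ q ∈ n.primeFactors.erase p, q) = 1 := by
      rw [← Finset.prod_pow]
      apply Finset.prod_eq_one
      intro q hq
      have hqp : q.Prime := Nat.prime_of_mem_primeFactors (Finset.mem_of_mem_erase hq)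
      rw [← pow_mul, mul_comm, pow_mul]
      have : zeta q ^ (∏ q ∈ n.primeFactors.erase p, q) = 1 := by
        rw [(zeta_prim hqp).pow_eq_one_iff_dvd]
        exact Finset.dvd_prod_of_mem _ hq
      rw [this, one_pow]
    rw [h1, mul_one, ← pow_mul, mul_comm, pow_mul]
  apply Nat.eq_of_factorization_eq ht0 hs0
  intro p
  by_cases hp : p ∈ n.primeFactors
  · have hpp : p.Prime := Nat.prime_of_mem_primeFactors hp
    have h1 := key p hp t
    have h2 := key p hp s
    rw [h] at h1
    have h3 := h1.symm.trans h2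
    have hcop : Nat.Coprime (∏ q ∈ n.primeFactors.erase p, q) p := by
      apply Nat.Coprime.prod_left
      intro q hq
      have hqp : q.Prime := Nat.prime_of_mem_primeFactors (Finset.mem_of_mem_erase hq)
      exact (Nat.coprime_primes hqp hpp).2 (Finset.ne_of_mem_erase hq)
    exact ((zeta_prim hpp).pow_of_coprime _ hcop).pow_inj (fact_lt hM ht hpp)
      (fact_lt hM hs hpp) h3
  · have hz : ∀ u : ℕ, u ∣ n → u.factorization p = 0 := by
      intro u hu
      by_contra hne
      apply hp
      have : p ∈ u.primeFactors := by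
        rw [← Nat.support_factorization]
        exact Finsupp.mem_support_iff.2 hne
      exact Nat.primeFactors_mono hu hn this
    rw [hz t ht, hz s hs]

/-- entry of the matrix -/
noncomputable def ent (c : ℕ → ℕ) (s j : ℕ) : ℂ :=
  ∏ p ∈ s.primeFactors, (zeta p ^ (s.factorization p * (c p + j)) - 1)

lemma sub_divisor {n t : ℕ} (hn : n ≠ 0) (ht : t ∣ n) (c : ℕ → ℕ) (S : Finset ℕ)
    (hS : S ⊆ t.primeFactors) :
    ∃ u, u ∣ n ∧ ∀ j, ent c u j = ∏ p ∈ S, (zeta p ^ (t.factorization p * (c p + j)) - 1) := by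
  have ht0 : t ≠ 0 := fun h0 => hn (by rw [h0, zero_dvd_iff] at ht; exact ht)
  classical
  set f : ℕ →₀ ℕ := t.factorization.filter (fun p => p ∈ S) with hf
  have hsupp : f.support = S := by
    rw [hf, Finsupp.support_filter, Nat.support_factorization]
    ext p
    simp only [Finset.mem_filter]
    exact ⟨fun h => h.2, fun h => ⟨hS h, h⟩⟩
  have hfp : ∀ p ∈ S, f p = t.factorization p := by
    intro p hp
    rw [hf]
    exact Finsupp.filter_apply_pos _ _ hp
  set u : ℕ := f.prod (fun p k => p ^ k) with hu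
  have hfac : u.factorization = f := by
    apply Nat.prod_pow_factorization_eq_self
    intro p hp
    rw [hsupp] at hp
    exact Nat.prime_of_mem_primeFactors (hS hp)
  have hu' : u = ∏ p ∈ S, p ^ t.factorization p := by
    rw [hu, Finsupp.prod, hsupp]
    exact Finset.prod_congr rfl (fun p hp => by rw [hfp p hp])
  have hut : u ∣ t := by
    rw [hu']
    conv_rhs => rw [← Nat.prod_factorization_pow_eq_self ht0]
    rw [Finsupp.prod, Nat.support_factorization]
    exact Finset.prod_dvd_prod_of_subset _ _ _ hS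
  refine ⟨u, hut.trans ht, fun j => ?_⟩
  unfold ent
  have hpf : u.primeFactors = S := by
    rw [← Nat.support_factorization, hfac, hsupp]
  rw [hpf]
  apply Finset.prod_congr rfl
  intro p hp
  rw [hfac, hfp p hp]

lemma expo_eq {n t : ℕ} (hn : n ≠ 0) (ht : t ∣ n) (c : ℕ → ℕ) (j : ℕ) :
    ∏ p ∈ n.primeFactors, zeta p ^ (t.factorization p * (c p + j)) =
      ∑ S ∈ t.primeFactors.powerset,
        ∏ p ∈ S, (zeta p ^ (t.factorization p * (c p + j)) - 1) := by
  have h1 : ∏ p ∈ n.primeFactors, zeta p ^ (t.factorization p * (c p + j)) =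
      ∏ p ∈ t.primeFactors, zeta p ^ (t.factorization p * (c p + j)) := by
    symm
    apply Finset.prod_subset (Nat.primeFactors_mono ht hn)
    intro p _ hp
    have : t.factorization p = 0 := by
      rw [← Nat.support_factorization] at hp
      exact Finsupp.notMem_support_iff.1 hp
    rw [this, zero_mul, pow_zero]
  rw [h1]
  have h2 : ∏ p ∈ t.primeFactors, zeta p ^ (t.factorization p * (c p + j)) =
      ∏ p ∈ t.primeFactors, ((zeta p ^ (t.factorization p * (c p + j)) - 1) + 1) :=
    Finset.prod_congr rfl (fun p _ => by ring)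
  rw [h2, Finset.prod_add_one]

lemma exists_shift {a d p : ℕ} (had : Nat.gcd a d = 1) (hp : p.Prime) :
    ∃ c : ℕ, ∀ j : ℕ, p ∣ a + j * d → p ∣ c + j := by
  by_cases hpd : p ∣ d
  · refine ⟨0, fun j hj => ?_⟩
    exfalso
    have hpa : p ∣ a := (Nat.dvd_add_left (Dvd.dvd.mul_left hpd j)).1 hj
    have : p ∣ Nat.gcd a d := Nat.dvd_gcd hpa hpd
    rw [had] at this
    exact hp.one_lt.ne' (Nat.dvd_one.1 this)
  · have hcop : Nat.Coprime d p := ((Nat.Prime.coprime_iff_not_dvd hp).2 hpd).symm
    obtain ⟨b, _, hb⟩ := Nat.exists_mul_mod_eq_one_of_coprime hcop hp.one_lt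
    refine ⟨a * b, fun j hj => ?_⟩
    have h1 : p ∣ b * (a + j * d) := Dvd.dvd.mul_left hj b
    have h2 : d * b ≡ 1 [MOD p] := by
      unfold Nat.ModEq
      rw [hb, Nat.mod_eq_of_lt hp.one_lt]
    have h3 : b * (a + j * d) ≡ a * b + j [MOD p] := by
      have h4 : b * (a + j * d) = a * b + j * (d * b) := by ring
      rw [h4]
      have h5 : j * (d * b) ≡ j * 1 [MOD p] := Nat.ModEq.mul_left j h2
      rw [mul_one] at h5
      exact Nat.ModEq.add_left (a * b) h5
    exact (Nat.ModEq.dvd_iff h3 dvd_rfl).1 h1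

lemma coprime_of_ent_ne {c : ℕ → ℕ} {s j m : ℕ} (hs : s ≠ 0)
    (hc : ∀ p ∈ s.primeFactors, p ∣ m → p ∣ c p + j) (h : ent c s j ≠ 0) :
    Nat.gcd s m = 1 := by
  by_contra hne
  obtain ⟨p, hp, hpg⟩ := Nat.exists_prime_and_dvd hne
  have hps : p ∣ s := hpg.trans (Nat.gcd_dvd_left _ _)
  have hpm : p ∣ m := hpg.trans (Nat.gcd_dvd_right _ _)
  have hpf : p ∈ s.primeFactors := Nat.mem_primeFactors.2 ⟨hp, hps, hs⟩
  apply h
  unfold ent
  apply Finset.prod_eq_zero hpf
  rw [sub_eq_zero]
  rw [(zeta_prim hp).pow_eq_one_iff_dvd]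
  exact Dvd.dvd.mul_left (hc p hpf hpm) _

/-- **Main theorem**: every M-number is strongly matchable. -/
theorem result : ∀ n : ℕ, IsMNumber n → IsStronglyMatchable n := by
  intro n hM
  refine ⟨hM.1, fun a d _ hd1 had => ?_⟩
  have hn : n ≠ 0 := hM.1.ne'
  classical
  -- the shifts
  have hshift : ∀ p : ℕ, ∃ c : ℕ, p.Prime → ∀ j : ℕ, p ∣ a + j * d → p ∣ c + j := by
    intro p
    by_cases hp : p.Prime
    · obtain ⟨c, hc⟩ := exists_shift had hp
      exact ⟨c, fun _ => hc⟩
    · exact ⟨0, fun h => absurd h hp⟩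
  choose c hc using hshift
  set N := n.divisors.card with hN
  let e : {x // x ∈ n.divisors} ≃ Fin N := n.divisors.equivFin
  let dv : Fin N → ℕ := fun i => ((e.symm i : {x // x ∈ n.divisors}) : ℕ)
  have hdv : ∀ i, dv i ∣ n := fun i => Nat.dvd_of_mem_divisors (e.symm i).2
  have hdv_inj : Function.Injective dv := by
    intro i j hij
    exact e.symm.injective (Subtype.ext hij)
  let B : Matrix (Fin N) (Fin N) ℂ := Matrix.of fun i j => ent c (dv i) (j : ℕ)
  let V : Matrix (Fin N) (Fin N) ℂ := Matrix.vandermonde fun i => base n (dv i)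
  have hV : V.det ≠ 0 := by
    rw [Matrix.det_vandermonde_ne_zero_iff]
    intro i j hij
    exact hdv_inj (base_inj hM (hdv i) (hdv j) hij)
  have hdet : B.det ≠ 0 := by
    intro h0
    obtain ⟨v, hv, hBv⟩ := Matrix.exists_mulVec_eq_zero_iff.2 h0
    apply hV
    apply Matrix.exists_mulVec_eq_zero_iff.1
    refine ⟨v, hv, ?_⟩
    -- rows of `B` vanish against `v`
    have hrow : ∀ u, u ∣ n → ∑ j : Fin N, ent c u (j : ℕ) * v j = 0 := by
      intro u hu
      have hmem : u ∈ n.divisors := Nat.mem_divisors.2 ⟨hu, hn⟩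
      have h1 := congrFun hBv (e ⟨u, hmem⟩)
      simp only [Matrix.mulVec, dotProduct, B, Matrix.of_apply, dv, Equiv.symm_apply_apply,
        Pi.zero_apply] at h1
      exact h1
    funext i
    have h2 : ∑ j : Fin N,
        (∏ p ∈ n.primeFactors, zeta p ^ ((dv i).factorization p * (c p + (j : ℕ)))) * v j = 0 := by
      have h3 : ∀ j : Fin N,
          (∏ p ∈ n.primeFactors, zeta p ^ ((dv i).factorization p * (c p + (j : ℕ)))) * v j
          = ∑ S ∈ (dv i).primeFactors.powerset,
            (∏ p ∈ S, (zeta p ^ ((dv i).factorization p * (c p + (j : ℕ))) - 1)) * v j := by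
        intro j
        rw [expo_eq hn (hdv i) c j, Finset.sum_mul]
      rw [Finset.sum_congr rfl (fun j _ => h3 j), Finset.sum_comm]
      apply Finset.sum_eq_zero
      intro S hS
      obtain ⟨u, hu, hue⟩ := sub_divisor hn (hdv i) c S (Finset.mem_powerset.1 hS)
      rw [← hrow u hu]
      exact Finset.sum_congr rfl (fun j _ => by rw [hue j])
    have h4 : ∀ j : Fin N,
        (∏ p ∈ n.primeFactors, zeta p ^ ((dv i).factorization p * (c p + (j : ℕ)))) * v j
        = (∏ p ∈ n.primeFactors, zeta p ^ ((dv i).factorization p * c p)) *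
          (base n (dv i) ^ (j : ℕ) * v j) := by
      intro j
      rw [← mul_assoc]
      congr 1
      unfold base
      rw [← Finset.prod_pow, ← Finset.prod_mul_distrib]
      apply Finset.prod_congr rfl
      intro p _
      rw [← pow_mul, ← pow_add, mul_add]
    rw [Finset.sum_congr rfl (fun j _ => h4 j), ← Finset.mul_sum] at h2
    have h5 : (∏ p ∈ n.primeFactors, zeta p ^ ((dv i).factorization p * c p)) ≠ 0 := by
      rw [Finset.prod_ne_zero_iff]
      intro p hp
      exact pow_ne_zero _ ((zeta_prim (Nat.prime_of_mem_primeFactors hp)).ne_zero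
        (Nat.prime_of_mem_primeFactors hp).ne_zero)
    have h6 := (mul_eq_zero.1 h2).resolve_left h5
    simpa [Matrix.mulVec, dotProduct, V, Matrix.vandermonde_apply] using h6
  -- a nonzero term in the Leibniz expansion
  obtain ⟨σ, hσ⟩ : ∃ σ : Equiv.Perm (Fin N), ∀ j, ent c (dv (σ j)) (j : ℕ) ≠ 0 := by
    by_contra hcon
    push Not at hcon
    apply hdet
    rw [Matrix.det_apply]
    apply Finset.sum_eq_zero
    intro σ _
    obtain ⟨j, hj⟩ := hcon σ
    have : ∏ i, B (σ i) i = 0 := Finset.prod_eq_zero (Finset.mem_univ j) hj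
    rw [this, smul_zero]
  let ψ : ℕ → ℕ := fun x =>
    if h : x ∈ n.divisors then a + ((σ.symm (e ⟨x, h⟩) : Fin N) : ℕ) * d else 0
  have hψ : ∀ x (h : x ∈ n.divisors), ψ x = a + ((σ.symm (e ⟨x, h⟩) : Fin N) : ℕ) * d := by
    intro x h
    simp only [ψ, h, dif_pos]
  refine ⟨ψ, ⟨?_, ?_, ?_⟩, ?_⟩
  · intro x hx
    have hx' : x ∈ n.divisors := hx
    rw [hψ x hx']
    simp only [progression, Finset.coe_image, Set.mem_image, Finset.coe_range, Set.mem_Iio]
    exact ⟨_, (σ.symm (e ⟨x, hx'⟩)).2, rfl⟩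
  · intro x hx y hy hxy
    have hx' : x ∈ n.divisors := hx
    have hy' : y ∈ n.divisors := hy
    rw [hψ x hx', hψ y hy'] at hxy
    have h1 := Nat.eq_of_mul_eq_mul_right hd1 (Nat.add_left_cancel hxy)
    have h2 := e.injective (σ.symm.injective (Fin.ext h1))
    exact congrArg Subtype.val h2
  · intro y hy
    simp only [progression, Finset.coe_image, Set.mem_image, Finset.coe_range, Set.mem_Iio] at hy
    obtain ⟨j, hj, rfl⟩ := hy
    refine ⟨dv (σ ⟨j, hj⟩), (e.symm (σ ⟨j, hj⟩)).2, ?_⟩
    rw [hψ _ (e.symm (σ ⟨j, hj⟩)).2]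
    simp only [Subtype.coe_eta, Equiv.apply_symm_apply, Equiv.symm_apply_apply]
  · intro x hx
    rw [hψ x hx]
    have hx0 : x ≠ 0 := (Nat.pos_of_mem_divisors hx).ne'
    have h1 := hσ (σ.symm (e ⟨x, hx⟩))
    simp only [dv, Equiv.apply_symm_apply, Equiv.symm_apply_apply] at h1
    refine coprime_of_ent_ne hx0 ?_ h1
    intro p hp hdvd
    exact hc p (Nat.prime_of_mem_primeFactors hp) _ hdvd

end Pool.Agent.Results.MP_0a29ca_nt.MNumbersAreStronglyMatchable
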